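import Mathlib

/-!
# Discrete Prekopa-Leindler on `ℤ` (helper41, for project SQ of helper42, MP_71c16a_nt)

`f, g, h ≥ 0` with finite support (finite sums over `A`, `B`, `C`), `h (i + j + e) ≥ √(f i g j)` for `e = 0, 1`; then `∑ h ≥ 2 √(∑ f ∑ g)`.
-/

set_option autoImplicit false

namespace Pool.Agent.Helper41.SQ

open Finset MeasureTheory
open scoped Pointwise

theorem integral_step {a : ℝ} (ha : 0 ≤ a) : ∫ t in (0 : ℝ)..1, (if t ≤ a then (1 : ℝ) else 0) = min a 1 := by
  rcases le_total a 1 with h | h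
  · rw [min_eq_left h]
    have h1 : IntervalIntegrable (fun t : ℝ => if t ≤ a then (1 : ℝ) else 0) volume 0 a := by
      refine (intervalIntegrable_const (c := (1 : ℝ))).congr ?_
      intro t ht
      rw [Set.uIoc_of_le ha] at ht
      simp [ht.2]
    have h2 : IntervalIntegrable (fun t : ℝ => if t ≤ a then (1 : ℝ) else 0) volume a 1 := by
      refine (intervalIntegrable_const (c := (0 : ℝ))).congr ?_
      intro t ht
      rw [Set.uIoc_of_le h] at ht
      simp [not_le.2 ht.1]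
    rw [← intervalIntegral.integral_add_adjacent_intervals h1 h2]
    have e1 : ∫ t in (0 : ℝ)..a, (if t ≤ a then (1 : ℝ) else 0) = ∫ _t in (0 : ℝ)..a, (1 : ℝ) := by
      refine intervalIntegral.integral_congr_ae (Filter.Eventually.of_forall fun t ht => ?_)
      rw [Set.uIoc_of_le ha] at ht
      simp [ht.2]
    have e2 : ∫ t in a..(1 : ℝ), (if t ≤ a then (1 : ℝ) else 0) = ∫ _t in a..(1 : ℝ), (0 : ℝ) := by
      refine intervalIntegral.integral_congr_ae (Filter.Eventually.of_forall fun t ht => ?_)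
      rw [Set.uIoc_of_le h] at ht
      simp [not_le.2 ht.1]
    rw [e1, e2]
    simp
  · rw [min_eq_right h]
    have e1 : ∫ t in (0 : ℝ)..1, (if t ≤ a then (1 : ℝ) else 0) = ∫ _t in (0 : ℝ)..1, (1 : ℝ) := by
      refine intervalIntegral.integral_congr_ae (Filter.Eventually.of_forall fun t ht => ?_)
      rw [Set.uIoc_of_le zero_le_one] at ht
      simp [ht.2.trans h]
    rw [e1]; simp

theorem integrable_step {a : ℝ} (_ha : 0 ≤ a) :
    IntervalIntegrable (fun t : ℝ => if t ≤ a then (1 : ℝ) else 0) volume 0 1 := by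
  have hm : Measurable (fun t : ℝ => if t ≤ a then (1 : ℝ) else 0) :=
    Measurable.ite measurableSet_Iic measurable_const measurable_const
  refine (intervalIntegrable_const (c := (1 : ℝ))).mono_fun hm.aestronglyMeasurable ?_
  refine Filter.Eventually.of_forall fun t => ?_
  beta_reduce
  split_ifs <;> simp

/-- layer cake -/
theorem sum_eq_integral {α : Type*} (s : Finset α) (f : α → ℝ) (h0 : ∀ i ∈ s, 0 ≤ f i) :
    ∑ i ∈ s, min (f i) 1 = ∫ t in (0 : ℝ)..1, ((s.filter fun i => t ≤ f i).card : ℝ) := by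
  have e : ∀ t : ℝ, ((s.filter fun i => t ≤ f i).card : ℝ) = ∑ i ∈ s, (if t ≤ f i then (1 : ℝ) else 0) := by
    intro t
    rw [← Finset.sum_filter, Finset.sum_const, nsmul_eq_mul, mul_one]
  simp_rw [e]
  rw [intervalIntegral.integral_finsetSum (fun i hi => integrable_step (h0 i hi))]
  exact Finset.sum_congr rfl fun i hi => (integral_step (h0 i hi)).symm

theorem integrable_card {α : Type*} (s : Finset α) (f : α → ℝ) (h0 : ∀ i ∈ s, 0 ≤ f i) :
    IntervalIntegrable (fun t : ℝ => ((s.filter fun i => t ≤ f i).card : ℝ)) volume 0 1 := by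
  have e : (fun t : ℝ => ((s.filter fun i => t ≤ f i).card : ℝ)) =
      ∑ i ∈ s, fun t : ℝ => (if t ≤ f i then (1 : ℝ) else 0) := by
    funext t
    rw [Finset.sum_apply, ← Finset.sum_filter, Finset.sum_const, nsmul_eq_mul, mul_one]
  rw [e]
  exact IntervalIntegrable.sum _ fun i hi => integrable_step (h0 i hi)

theorem card_add3 (A B : Finset ℤ) (hA : A.Nonempty) (hB : B.Nonempty) :
    A.card + B.card ≤ (A + B + ({0, 1} : Finset ℤ)).card := by
  have h1 := cauchy_davenport_add_of_linearOrder_isCancelAdd hA hB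
  have h2 := cauchy_davenport_add_of_linearOrder_isCancelAdd (hA.add hB) (by simp : ({0, 1} : Finset ℤ).Nonempty)
  have h3 : ({0, 1} : Finset ℤ).card = 2 := by decide
  have h4 := hA.card_pos
  omega

/-- normalised form -/
theorem pl_norm (A B C : Finset ℤ) (f g h : ℤ → ℝ) (hf0 : ∀ i ∈ A, 0 ≤ f i) (hf1 : ∀ i ∈ A, f i ≤ 1)
    (hg0 : ∀ i ∈ B, 0 ≤ g i) (hg1 : ∀ i ∈ B, g i ≤ 1) (hfm : ∃ i ∈ A, f i = 1) (hgm : ∃ i ∈ B, g i = 1)
    (hh0 : ∀ i ∈ C, 0 ≤ h i)
    (hh : ∀ i ∈ A, ∀ j ∈ B, 0 < f i → 0 < g j → ∀ e : ℤ, e = 0 ∨ e = 1 →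
      i + j + e ∈ C ∧ min (f i) (g j) ≤ h (i + j + e)) :
    ∑ i ∈ A, f i + ∑ i ∈ B, g i ≤ ∑ i ∈ C, h i := by
  have hA : ∑ i ∈ A, f i = ∑ i ∈ A, min (f i) 1 := Finset.sum_congr rfl fun i hi => (min_eq_left (hf1 i hi)).symm
  have hB : ∑ i ∈ B, g i = ∑ i ∈ B, min (g i) 1 := Finset.sum_congr rfl fun i hi => (min_eq_left (hg1 i hi)).symm
  have hC : ∑ i ∈ C, min (h i) 1 ≤ ∑ i ∈ C, h i := Finset.sum_le_sum fun i _ => min_le_left _ _
  refine le_trans ?_ hC
  rw [hA, hB, sum_eq_integral A f hf0, sum_eq_integral B g hg0, sum_eq_integral C h hh0,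
    ← intervalIntegral.integral_add (integrable_card A f hf0) (integrable_card B g hg0)]
  refine intervalIntegral.integral_mono_on_of_le_Ioo zero_le_one ((integrable_card A f hf0).add (integrable_card B g hg0))
    (integrable_card C h hh0) fun t ht => ?_
  have hsub : (A.filter fun i => t ≤ f i) + (B.filter fun i => t ≤ g i) + ({0, 1} : Finset ℤ) ⊆
      C.filter fun i => t ≤ h i := by
    intro x hx
    obtain ⟨y, hy, e, he, rfl⟩ := Finset.mem_add.1 hx
    obtain ⟨i, hi, j, hj, rfl⟩ := Finset.mem_add.1 hy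
    obtain ⟨hiA, hit⟩ := Finset.mem_filter.1 hi
    obtain ⟨hjB, hjt⟩ := Finset.mem_filter.1 hj
    have he' : e = 0 ∨ e = 1 := by simpa using he
    obtain ⟨h1, h2⟩ := hh i hiA j hjB (lt_of_lt_of_le ht.1 hit) (lt_of_lt_of_le ht.1 hjt) e he'
    exact Finset.mem_filter.2 ⟨h1, le_trans (le_min hit hjt) h2⟩
  obtain ⟨i0, hi0, hi1⟩ := hfm
  obtain ⟨j0, hj0, hj1⟩ := hgm
  have hne1 : (A.filter fun i => t ≤ f i).Nonempty := ⟨i0, Finset.mem_filter.2 ⟨hi0, by rw [hi1]; exact ht.2.le⟩⟩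
  have hne2 : (B.filter fun i => t ≤ g i).Nonempty := ⟨j0, Finset.mem_filter.2 ⟨hj0, by rw [hj1]; exact ht.2.le⟩⟩
  have h1 := (card_add3 _ _ hne1 hne2).trans (Finset.card_le_card hsub)
  exact_mod_cast h1

/-- discrete Prekopa-Leindler inequality with a constant -/
theorem pl (A B C : Finset ℤ) (f g h : ℤ → ℝ) (c : ℝ) (hc : 0 ≤ c) (hf0 : ∀ i ∈ A, 0 ≤ f i)
    (hg0 : ∀ i ∈ B, 0 ≤ g i) (hh0 : ∀ i ∈ C, 0 ≤ h i)
    (hh : ∀ i ∈ A, ∀ j ∈ B, 0 < f i → 0 < g j → ∀ e : ℤ, e = 0 ∨ e = 1 →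
      i + j + e ∈ C ∧ c * Real.sqrt (f i * g j) ≤ h (i + j + e)) :
    2 * c * Real.sqrt ((∑ i ∈ A, f i) * ∑ i ∈ B, g i) ≤ ∑ i ∈ C, h i := by
  have hCnn : 0 ≤ ∑ i ∈ C, h i := Finset.sum_nonneg hh0
  rcases hc.eq_or_lt with hc0 | hcpos
  · rw [← hc0]; simpa using hCnn
  by_cases hFz : ∑ i ∈ A, f i = 0
  · rw [hFz]; simpa using hCnn
  by_cases hGz : ∑ i ∈ B, g i = 0
  · rw [hGz]; simpa using hCnn
  have hAne : A.Nonempty := by
    by_contra hcon
    rw [Finset.not_nonempty_iff_eq_empty] at hcon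
    exact hFz (by rw [hcon]; simp)
  have hBne : B.Nonempty := by
    by_contra hcon
    rw [Finset.not_nonempty_iff_eq_empty] at hcon
    exact hGz (by rw [hcon]; simp)
  obtain ⟨i0, hi0, hmax⟩ := Finset.exists_max_image A f hAne
  obtain ⟨j0, hj0, hmax'⟩ := Finset.exists_max_image B g hBne
  have hfpos : 0 < f i0 := by
    by_contra hcon
    apply hFz
    refine Finset.sum_eq_zero fun i hi => le_antisymm ?_ (hf0 i hi)
    exact (hmax i hi).trans (not_lt.1 hcon)
  have hgpos : 0 < g j0 := by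
    by_contra hcon
    apply hGz
    refine Finset.sum_eq_zero fun i hi => le_antisymm ?_ (hg0 i hi)
    exact (hmax' i hi).trans (not_lt.1 hcon)
  set a := f i0 with ha
  set b := g j0 with hb
  have hsab : 0 < Real.sqrt (a * b) := Real.sqrt_pos.2 (mul_pos hfpos hgpos)
  have key := pl_norm A B C (fun i => f i / a) (fun i => g i / b) (fun i => h i / (c * Real.sqrt (a * b)))
    (fun i hi => div_nonneg (hf0 i hi) hfpos.le) (fun i hi => (div_le_one hfpos).2 (hmax i hi))
    (fun i hi => div_nonneg (hg0 i hi) hgpos.le) (fun i hi => (div_le_one hgpos).2 (hmax' i hi))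
    ⟨i0, hi0, div_self hfpos.ne'⟩ ⟨j0, hj0, div_self hgpos.ne'⟩
    (fun i hi => div_nonneg (hh0 i hi) (by positivity)) (fun i hi j hj hfi hgj e he => ?_)
  · rw [← Finset.sum_div, ← Finset.sum_div, ← Finset.sum_div, le_div_iff₀ (by positivity)] at key
    refine le_trans ?_ key
    set F := ∑ i ∈ A, f i
    set G := ∑ i ∈ B, g i
    have hF : 0 ≤ F := Finset.sum_nonneg hf0
    have hG : 0 ≤ G := Finset.sum_nonneg hg0
    have h1 : 2 * Real.sqrt ((F / a) * (G / b)) ≤ F / a + G / b := by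
      have hx : 0 ≤ F / a := div_nonneg hF hfpos.le
      have hy : 0 ≤ G / b := div_nonneg hG hgpos.le
      rw [Real.sqrt_mul hx]
      nlinarith [sq_nonneg (Real.sqrt (F / a) - Real.sqrt (G / b)), Real.sq_sqrt hx, Real.sq_sqrt hy]
    have h2 : Real.sqrt ((F / a) * (G / b)) * Real.sqrt (a * b) = Real.sqrt (F * G) := by
      rw [← Real.sqrt_mul (by positivity)]
      congr 1
      field_simp
    calc 2 * c * Real.sqrt (F * G) = 2 * Real.sqrt ((F / a) * (G / b)) * (c * Real.sqrt (a * b)) := by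
          rw [← h2]; ring
      _ ≤ (F / a + G / b) * (c * Real.sqrt (a * b)) := mul_le_mul_of_nonneg_right h1 (by positivity)
  · have hfi' : 0 < f i := by
      have := mul_pos hfi hfpos
      rwa [div_mul_cancel₀ _ hfpos.ne'] at this
    have hgj' : 0 < g j := by
      have := mul_pos hgj hgpos
      rwa [div_mul_cancel₀ _ hgpos.ne'] at this
    obtain ⟨h1, h2⟩ := hh i hi j hj hfi' hgj' e he
    refine ⟨h1, ?_⟩
    rw [le_div_iff₀ (by positivity)]
    refine le_trans ?_ h2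
    have h3 : Real.sqrt (f i * g j) = Real.sqrt ((f i / a) * (g j / b)) * Real.sqrt (a * b) := by
      rw [← Real.sqrt_mul (by positivity)]
      congr 1
      field_simp
    have h4 : min (f i / a) (g j / b) ≤ Real.sqrt ((f i / a) * (g j / b)) := by
      refine Real.le_sqrt_of_sq_le ?_
      rw [sq]
      exact mul_le_mul (min_le_left _ _) (min_le_right _ _) (le_min hfi.le hgj.le) hfi.le
    rw [h3]
    calc min (f i / a) (g j / b) * (c * Real.sqrt (a * b)) ≤
        Real.sqrt ((f i / a) * (g j / b)) * (c * Real.sqrt (a * b)) := mul_le_mul_of_nonneg_right h4 (by positivity)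
      _ = c * (Real.sqrt (f i / a * (g j / b)) * Real.sqrt (a * b)) := by ring

end Pool.Agent.Helper41.SQ
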