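import Mathlib
import Pool.Agent.Helper41.SQ.PL

/-!
# Graded pieces of finite dimensional spaces and the step of the Brunn-Minkowski inequality (helper41, project SQ of helper42)

`Lead k K κ`: a discrete valuation of `K` which is trivial on `k`, in the form of the spaces `M n` of elements of valuation `≥ n` and of the
leading coefficients `ld n : M n → κ`. `BM c k K`: there is a finite dimensional `Q` with `dim (A B Q) ≥ c √(dim A dim B)` for all finite
dimensional `A, B ≠ 0`. `bm_step`: `BM c k κ → BM (2 c) k K`.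
-/

set_option autoImplicit false

namespace Pool.Agent.Helper41.SQ

open Finset Module

/-- `dim (A B Q) ≥ c √(dim A dim B)` -/
def BM (c : ℝ) (k K : Type*) [Field k] [Field K] [Algebra k K] : Prop :=
  ∃ Q : Submodule k K, FiniteDimensional k Q ∧ ∀ A B : Submodule k K, FiniteDimensional k A → FiniteDimensional k B →
    A ≠ ⊥ → B ≠ ⊥ → c * Real.sqrt (finrank k A * finrank k B) ≤ finrank k (A * B * Q : Submodule k K)

/-- a discrete valuation, trivial on `k`, with its leading coefficients -/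
structure Lead (k K κ : Type*) [Field k] [Field K] [Field κ] [Algebra k K] [Algebra k κ] where
  M : ℤ → Submodule k K
  ld : ℤ → K → κ
  anti : ∀ n, M (n + 1) ≤ M n
  add : ∀ n, ∀ x ∈ M n, ∀ y ∈ M n, ld n (x + y) = ld n x + ld n y
  smul : ∀ n, ∀ c : k, ∀ x ∈ M n, ld n (c • x) = c • ld n x
  ker : ∀ n, ∀ x ∈ M n, ld n x = 0 ↔ x ∈ M (n + 1)
  mul_mem : ∀ i j, ∀ x ∈ M i, ∀ y ∈ M j, x * y ∈ M (i + j)
  mul : ∀ i j, ∀ x ∈ M i, ∀ y ∈ M j, ld (i + j) (x * y) = ld i x * ld j y
  exh : ∀ x, ∃ n, x ∈ M n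
  sep : ∀ x, (∀ n, x ∈ M n) → x = 0
  surj : ∀ n : ℤ, ∀ c : κ, ∃ x ∈ M n, ld n x = c

namespace Lead

variable {k K κ : Type*} [Field k] [Field K] [Field κ] [Algebra k K] [Algebra k κ] (D : Lead k K κ)

theorem antitone : Antitone D.M := antitone_int_of_succ_le D.anti

/-- leading coefficient as a linear map -/
noncomputable def φ (n : ℤ) : D.M n →ₗ[k] κ where
  toFun x := D.ld n x
  map_add' x y := D.add n x x.2 y y.2
  map_smul' c x := D.smul n c x x.2

/-- the graded piece -/
noncomputable def gr (n : ℤ) (A : Submodule k K) : Submodule k κ :=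
  (A.comap (D.M n).subtype).map (D.φ n)

theorem mem_gr {n : ℤ} {A : Submodule k K} {c : κ} : c ∈ D.gr n A ↔ ∃ x ∈ A, x ∈ D.M n ∧ D.ld n x = c := by
  constructor
  · rintro ⟨x, hx, rfl⟩
    exact ⟨x, hx, x.2, rfl⟩
  · rintro ⟨x, hx, hx', rfl⟩
    exact ⟨⟨x, hx'⟩, hx, rfl⟩

theorem gr_mul (i j : ℤ) (A B : Submodule k K) : D.gr i A * D.gr j B ≤ D.gr (i + j) (A * B) := by
  rw [Submodule.mul_le]
  intro a ha b hb
  obtain ⟨x, hx, hx', rfl⟩ := D.mem_gr.1 ha
  obtain ⟨y, hy, hy', rfl⟩ := D.mem_gr.1 hb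
  exact D.mem_gr.2 ⟨x * y, Submodule.mul_mem_mul hx hy, D.mul_mem i j x hx' y hy', D.mul i j x hx' y hy'⟩

theorem gr_mono {n : ℤ} {A B : Submodule k K} (h : A ≤ B) : D.gr n A ≤ D.gr n B := by
  intro c hc
  obtain ⟨x, hx, hx', rfl⟩ := D.mem_gr.1 hc
  exact D.mem_gr.2 ⟨x, h hx, hx', rfl⟩

theorem finite_gr (n : ℤ) (A : Submodule k K) [FiniteDimensional k A] : FiniteDimensional k (D.gr n A) := by
  have : FiniteDimensional k (A.comap (D.M n).subtype) :=
    Module.Finite.of_injective ((D.M n).subtype.restrict (p := A.comap (D.M n).subtype) (q := A) fun x hx => hx)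
      (fun x y h => Subtype.ext (Subtype.ext (congrArg (fun z : A => (z : K)) h)))
  exact Module.Finite.map _ _

theorem finrank_inf (n : ℤ) (A : Submodule k K) [FiniteDimensional k A] :
    finrank k (A ⊓ D.M n : Submodule k K) = finrank k (A ⊓ D.M (n + 1) : Submodule k K) + finrank k (D.gr n A) := by
  -- rank-nullity for the leading coefficient on `A ⊓ M n`
  set g : (A ⊓ D.M n : Submodule k K) →ₗ[k] κ := (D.φ n).comp (Submodule.inclusion inf_le_right) with hg
  have hfd : FiniteDimensional k (A ⊓ D.M n : Submodule k K) := Submodule.finiteDimensional_of_le inf_le_left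
  have h1 := LinearMap.finrank_range_add_finrank_ker g
  have h2 : LinearMap.range g = D.gr n A := by
    ext c
    rw [LinearMap.mem_range, D.mem_gr]
    constructor
    · rintro ⟨x, rfl⟩
      exact ⟨x, x.2.1, x.2.2, rfl⟩
    · rintro ⟨x, hx, hx', rfl⟩
      exact ⟨⟨x, hx, hx'⟩, rfl⟩
  have h3 : finrank k (LinearMap.ker g) = finrank k (A ⊓ D.M (n + 1) : Submodule k K) := by
    refine LinearEquiv.finrank_eq ?_
    refine LinearEquiv.ofBijective
      ({ toFun := fun x => ⟨((x : (A ⊓ D.M n : Submodule k K)) : K), x.1.2.1, (D.ker n _ x.1.2.2).1 x.2⟩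
         map_add' := fun x y => rfl
         map_smul' := fun c x => rfl } :
        LinearMap.ker g →ₗ[k] (A ⊓ D.M (n + 1) : Submodule k K)) ⟨?_, ?_⟩
    · intro x y h
      exact Subtype.ext (Subtype.ext (congrArg (fun z : (A ⊓ D.M (n + 1) : Submodule k K) => (z : K)) h))
    · intro y
      refine ⟨⟨⟨y, y.2.1, D.anti n y.2.2⟩, ?_⟩, ?_⟩
      · exact (D.ker n _ (D.anti n y.2.2)).2 y.2.2
      · rfl
  rw [h2, h3] at h1
  omega

theorem exists_lo (A : Submodule k K) [FiniteDimensional k A] : ∃ lo : ℤ, ∀ n ≤ lo, A ≤ D.M n := by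
  obtain ⟨s, hs⟩ := (Submodule.fg_iff_finiteDimensional A).2 inferInstance
  choose n hn using D.exh
  obtain ⟨lo, hlo⟩ : ∃ lo : ℤ, ∀ x ∈ s, lo ≤ n x := by
    obtain ⟨lo, h⟩ := (s.image fun x => -n x).exists_le
    exact ⟨-lo, fun x hx => neg_le.1 (h _ (Finset.mem_image_of_mem (fun x => -n x) hx))⟩
  refine ⟨lo, fun m hm => ?_⟩
  rw [← hs, Submodule.span_le]
  intro x hx
  exact D.antitone (hm.trans (hlo x hx)) (hn x)

theorem exists_hi (A : Submodule k K) [FiniteDimensional k A] : ∃ hi : ℤ, ∀ n ≥ hi, A ⊓ D.M n = ⊥ := by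
  -- the dimension of `A ⊓ M n` decreases; take a minimal value
  classical
  have hex : ∃ d : ℕ, ∃ n : ℤ, finrank k (A ⊓ D.M n : Submodule k K) = d := ⟨_, 0, rfl⟩
  obtain ⟨hi, hhi⟩ := Nat.find_spec hex
  have hmin : ∀ n : ℤ, Nat.find hex ≤ finrank k (A ⊓ D.M n : Submodule k K) := fun n => Nat.find_min' hex ⟨n, rfl⟩
  have hfd : ∀ n, FiniteDimensional k (A ⊓ D.M n : Submodule k K) := fun n => Submodule.finiteDimensional_of_le inf_le_left
  have heq : ∀ n ≥ hi, A ⊓ D.M n = A ⊓ D.M hi := by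
    intro n hn
    have hle : A ⊓ D.M n ≤ A ⊓ D.M hi := inf_le_inf_left _ (D.antitone hn)
    have := hfd hi
    refine Submodule.eq_of_le_of_finrank_le hle ?_
    rw [hhi]
    exact hmin n
  have hbot : A ⊓ D.M hi = ⊥ := by
    rw [eq_bot_iff]
    intro x hx
    rw [Submodule.mem_bot]
    refine D.sep x fun n => ?_
    rcases le_total n hi with h | h
    · exact D.antitone h hx.2
    · have : x ∈ A ⊓ D.M n := by rw [heq n h]; exact hx
      exact this.2
  exact ⟨hi, fun n hn => by rw [heq n hn, hbot]⟩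

/-- the sum of the dimensions of the graded pieces -/
theorem sum_gr (A : Submodule k K) [FiniteDimensional k A] : ∃ n0 : ℕ, ∀ n : ℕ, n0 ≤ n →
    finrank k A = ∑ i ∈ Finset.Ico (-(n : ℤ)) n, finrank k (D.gr i A) := by
  obtain ⟨lo, hlo⟩ := D.exists_lo A
  obtain ⟨hi, hhi⟩ := D.exists_hi A
  have htel : ∀ a : ℤ, ∀ m : ℕ, finrank k (A ⊓ D.M a : Submodule k K) =
      finrank k (A ⊓ D.M (a + m) : Submodule k K) + ∑ i ∈ Finset.Ico a (a + m), finrank k (D.gr i A) := by
    intro a m
    induction m with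
    | zero =>
      have e0 : a + ((0 : ℕ) : ℤ) = a := by simp
      rw [e0]; simp
    | succ m ih =>
      rw [ih, D.finrank_inf (a + m) A]
      have e : Finset.Ico a (a + ((m + 1 : ℕ) : ℤ)) = insert (a + (m : ℤ)) (Finset.Ico a (a + m)) := by
        ext x; simp only [Finset.mem_Ico, Finset.mem_insert]; push_cast; omega
      have e2 : a + ((m + 1 : ℕ) : ℤ) = a + (m : ℤ) + 1 := by push_cast; ring
      rw [e, Finset.sum_insert (by simp), e2]
      omega
  refine ⟨max lo.natAbs hi.natAbs, fun n hn => ?_⟩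
  have h1 : -(n : ℤ) ≤ lo := by
    have : lo.natAbs ≤ n := (le_max_left _ _).trans hn
    omega
  have h2 : hi ≤ (n : ℤ) := by
    have : hi.natAbs ≤ n := (le_max_right _ _).trans hn
    omega
  have h3 := htel (-(n : ℤ)) (2 * n)
  have e1 : -(n : ℤ) + ((2 * n : ℕ) : ℤ) = n := by push_cast; ring
  rw [e1, inf_eq_left.2 (hlo _ h1), hhi _ h2, finrank_bot, zero_add] at h3
  exact h3

end Lead

/-- the step of the induction -/
theorem bm_step {k K κ : Type*} [Field k] [Field K] [Field κ] [Algebra k K] [Algebra k κ] (D : Lead k K κ) {c : ℝ}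
    (hc : 0 ≤ c) (h : BM c k κ) : BM (2 * c) k K := by
  classical
  obtain ⟨Q', hQ', hBM⟩ := h
  obtain ⟨s, hs⟩ := (Submodule.fg_iff_finiteDimensional Q').2 hQ'
  choose! x hx hx' using fun a : κ => D.surj 0 a
  choose! y hy hy' using fun a : κ => D.surj 1 a
  set Q : Submodule k K := Submodule.span k ((s.image x ∪ s.image y : Finset K) : Set K) with hQ
  have hQfd : FiniteDimensional k Q := FiniteDimensional.span_finset k _
  have hQe : ∀ e : ℤ, e = 0 ∨ e = 1 → Q' ≤ D.gr e Q := by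
    intro e he
    rw [← hs, Submodule.span_le]
    intro a ha
    rcases he with rfl | rfl
    · exact D.mem_gr.2 ⟨x a, Submodule.subset_span (by simp only [Finset.coe_union, Finset.coe_image]; left; exact ⟨a, ha, rfl⟩),
        hx a, hx' a⟩
    · exact D.mem_gr.2 ⟨y a, Submodule.subset_span (by simp only [Finset.coe_union, Finset.coe_image]; right; exact ⟨a, ha, rfl⟩),
        hy a, hy' a⟩
  refine ⟨Q, hQfd, fun A B hA hB _ _ => ?_⟩
  have hABQ : FiniteDimensional k (A * B * Q : Submodule k K) := by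
    rw [← Submodule.fg_iff_finiteDimensional] at *
    exact (hA.mul hB).mul hQfd
  obtain ⟨nA, hnA⟩ := D.sum_gr A
  obtain ⟨nB, hnB⟩ := D.sum_gr B
  obtain ⟨nC, hnC⟩ := D.sum_gr (A * B * Q)
  set n : ℕ := max nA nB with hn
  have eA := hnA n (le_max_left _ _)
  have eB := hnB n (le_max_right _ _)
  have eC := hnC (max nC (2 * n + 1)) (le_max_left _ _)
  set m : ℕ := max nC (2 * n + 1) with hm
  have hm2 : 2 * n + 1 ≤ m := le_max_right _ _
  have key := pl (Finset.Ico (-(n : ℤ)) n) (Finset.Ico (-(n : ℤ)) n) (Finset.Ico (-(m : ℤ)) m)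
    (fun i => (finrank k (D.gr i A) : ℝ)) (fun i => (finrank k (D.gr i B) : ℝ))
    (fun i => (finrank k (D.gr i (A * B * Q)) : ℝ)) c hc (fun i _ => Nat.cast_nonneg _) (fun i _ => Nat.cast_nonneg _)
    (fun i _ => Nat.cast_nonneg _) (fun i hi j hj hfi hgj e he => ?_)
  · rw [eA, eB, eC]
    push_cast
    exact key
  · rw [Finset.mem_Ico] at hi hj
    refine ⟨?_, ?_⟩
    · rw [Finset.mem_Ico]
      rcases he with rfl | rfl <;> constructor <;> omega
    · have hfA : FiniteDimensional k (D.gr i A) := D.finite_gr i A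
      have hfB : FiniteDimensional k (D.gr j B) := D.finite_gr j B
      have hfC : FiniteDimensional k (D.gr (i + j + e) (A * B * Q)) := D.finite_gr _ _
      have hneA : D.gr i A ≠ ⊥ := by
        intro h0; rw [h0, finrank_bot] at hfi; simp at hfi
      have hneB : D.gr j B ≠ ⊥ := by
        intro h0; rw [h0, finrank_bot] at hgj; simp at hgj
      refine (hBM _ _ hfA hfB hneA hneB).trans ?_
      have hle : D.gr i A * D.gr j B * Q' ≤ D.gr (i + j + e) (A * B * Q) :=
        calc D.gr i A * D.gr j B * Q' ≤ D.gr (i + j) (A * B) * D.gr e Q :=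
              mul_le_mul' (D.gr_mul i j A B) (hQe e he)
          _ ≤ D.gr (i + j + e) (A * B * Q) := D.gr_mul (i + j) e (A * B) Q
      exact_mod_cast Submodule.finrank_mono hle

/-- the start of the induction -/
theorem bm_zero {k K : Type*} [Field k] [Field K] [Algebra k K] [FiniteDimensional k K] : BM 1 k K := by
  refine ⟨⊤, inferInstance, fun A B hA hB hA0 hB0 => ?_⟩
  obtain ⟨a, ha, ha0⟩ := Submodule.exists_mem_ne_zero_of_ne_bot hA0
  obtain ⟨b, hb, hb0⟩ := Submodule.exists_mem_ne_zero_of_ne_bot hB0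
  have htop : A * B * (⊤ : Submodule k K) = ⊤ := by
    rw [eq_top_iff]
    intro z _
    have : z = a * b * ((a * b)⁻¹ * z) := by
      rw [← mul_assoc, mul_inv_cancel₀ (mul_ne_zero ha0 hb0), one_mul]
    rw [this]
    exact Submodule.mul_mem_mul (Submodule.mul_mem_mul ha hb) Submodule.mem_top
  rw [htop, one_mul, finrank_top]
  have h1 : (finrank k A : ℝ) ≤ finrank k K := by exact_mod_cast Submodule.finrank_le A
  have h2 : (finrank k B : ℝ) ≤ finrank k K := by exact_mod_cast Submodule.finrank_le B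
  calc Real.sqrt (finrank k A * finrank k B) ≤ Real.sqrt ((finrank k K : ℝ) * finrank k K) :=
        Real.sqrt_le_sqrt (mul_le_mul h1 h2 (Nat.cast_nonneg _) (Nat.cast_nonneg _))
    _ = finrank k K := Real.sqrt_mul_self (Nat.cast_nonneg _)

end Pool.Agent.Helper41.SQ
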