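import Mathlib
import Pool.Agent.Helper41.SQ.Gr

/-!
# The leading coefficients of a discrete valuation ring (helper41, project SQ of helper42)
-/

set_option autoImplicit false

namespace Pool.Agent.Helper41.SQ

open Module IsLocalRing

section

variable (k O K : Type*) [Field k] [CommRing O] [IsDomain O] [IsDiscreteValuationRing O] [Field K] [Algebra O K]
  [IsFractionRing O K] [Algebra k O] [Algebra k K] [IsScalarTower k O K]

/-- the elements of valuation `≥ n` -/
def vM (ϖ : O) (n : ℤ) : Submodule k K where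
  carrier := {x | ∃ a : O, x = algebraMap O K ϖ ^ n * algebraMap O K a}
  add_mem' := by
    rintro x y ⟨a, rfl⟩ ⟨b, rfl⟩
    exact ⟨a + b, by rw [map_add]; ring⟩
  zero_mem' := ⟨0, by simp⟩
  smul_mem' := by
    rintro c x ⟨a, rfl⟩
    refine ⟨c • a, ?_⟩
    rw [Algebra.smul_def c a, map_mul, ← IsScalarTower.algebraMap_apply, Algebra.smul_def c]
    ring

open Classical in
/-- the leading coefficient -/
noncomputable def vl (ϖ : O) (n : ℤ) (x : K) : ResidueField O :=
  if h : ∃ a : O, x = algebraMap O K ϖ ^ n * algebraMap O K a then residue O h.choose else 0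

variable {k O K}

theorem vl_eq {ϖ : O} (hϖ : ϖ ≠ 0) (n : ℤ) (a : O) :
    vl O K ϖ n (algebraMap O K ϖ ^ n * algebraMap O K a) = residue O a := by
  have hinj : Function.Injective (algebraMap O K) := IsFractionRing.injective O K
  have h0 : algebraMap O K ϖ ≠ 0 := by
    intro h; exact hϖ (hinj (by rw [h, map_zero]))
  have h : ∃ b : O, algebraMap O K ϖ ^ n * algebraMap O K a = algebraMap O K ϖ ^ n * algebraMap O K b := ⟨a, rfl⟩
  unfold vl
  rw [dif_pos h]
  have h1 := h.choose_spec
  have h2 : algebraMap O K a = algebraMap O K h.choose := mul_left_cancel₀ (zpow_ne_zero n h0) h1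
  rw [← hinj h2]

/-- the data of a discrete valuation ring -/
noncomputable def leadOfDvr {ϖ : O} (hϖ : Irreducible ϖ) : Lead k K (ResidueField O) := by
  have hinj : Function.Injective (algebraMap O K) := IsFractionRing.injective O K
  have hϖ0 : ϖ ≠ 0 := hϖ.ne_zero
  have h0 : algebraMap O K ϖ ≠ 0 := by
    intro h; exact hϖ0 (hinj (by rw [h, map_zero]))
  exact
  { M := vM k O K ϖ
    ld := vl O K ϖ
    anti := by
      rintro n x ⟨a, rfl⟩
      refine ⟨ϖ * a, ?_⟩
      rw [zpow_add_one₀ h0, map_mul]; ring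
    add := by
      rintro n x ⟨a, rfl⟩ y ⟨b, rfl⟩
      rw [← mul_add, ← map_add, vl_eq hϖ0, vl_eq hϖ0, vl_eq hϖ0, map_add]
    smul := by
      rintro n c x ⟨a, rfl⟩
      have e : c • (algebraMap O K ϖ ^ n * algebraMap O K a) = algebraMap O K ϖ ^ n * algebraMap O K (c • a) := by
        rw [Algebra.smul_def c a, map_mul, ← IsScalarTower.algebraMap_apply, Algebra.smul_def c]
        ring
      rw [e, vl_eq hϖ0, vl_eq hϖ0]
      rw [Algebra.smul_def, map_mul, Algebra.smul_def]
      rfl
    ker := by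
      rintro n x ⟨a, rfl⟩
      rw [vl_eq hϖ0, residue_eq_zero_iff, hϖ.maximalIdeal_eq, Ideal.mem_span_singleton]
      constructor
      · rintro ⟨b, rfl⟩
        exact ⟨b, by rw [zpow_add_one₀ h0, map_mul]; ring⟩
      · rintro ⟨b, hb⟩
        refine ⟨b, hinj ?_⟩
        rw [zpow_add_one₀ h0, mul_assoc] at hb
        rw [mul_left_cancel₀ (zpow_ne_zero n h0) hb, map_mul]
    mul_mem := by
      rintro i j x ⟨a, rfl⟩ y ⟨b, rfl⟩
      refine ⟨a * b, ?_⟩
      rw [zpow_add₀ h0, map_mul]; ring
    mul := by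
      rintro i j x ⟨a, rfl⟩ y ⟨b, rfl⟩
      have e : algebraMap O K ϖ ^ i * algebraMap O K a * (algebraMap O K ϖ ^ j * algebraMap O K b) =
          algebraMap O K ϖ ^ (i + j) * algebraMap O K (a * b) := by
        rw [zpow_add₀ h0, map_mul]; ring
      rw [e, vl_eq hϖ0, vl_eq hϖ0, vl_eq hϖ0, map_mul]
    exh := by
      intro x
      obtain ⟨a, b, hb, rfl⟩ := IsFractionRing.div_surjective (A := O) x
      have hb0 : b ≠ 0 := nonZeroDivisors.ne_zero hb
      obtain ⟨m, u, rfl⟩ := IsDiscreteValuationRing.eq_unit_mul_pow_irreducible hb0 hϖ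
      refine ⟨-(m : ℤ), a * ((u⁻¹ : Oˣ) : O), ?_⟩
      have hu : algebraMap O K (u : O) * algebraMap O K ((u⁻¹ : Oˣ) : O) = 1 := by
        rw [← map_mul, Units.mul_inv, map_one]
      have hu0 : algebraMap O K (u : O) ≠ 0 := left_ne_zero_of_mul_eq_one hu
      rw [map_mul, map_mul, map_pow, zpow_neg, zpow_natCast, div_eq_mul_inv, mul_inv]
      rw [eq_inv_of_mul_eq_one_right hu]
      ring
    sep := by
      intro x hx
      by_contra hne
      obtain ⟨a, b, hb, rfl⟩ := IsFractionRing.div_surjective (A := O) x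
      have hb0 : b ≠ 0 := nonZeroDivisors.ne_zero hb
      have ha0 : a ≠ 0 := by rintro rfl; simp at hne
      obtain ⟨m, u, rfl⟩ := IsDiscreteValuationRing.eq_unit_mul_pow_irreducible ha0 hϖ
      obtain ⟨c, hc⟩ := hx (m + 1)
      have hbK : algebraMap O K b ≠ 0 := by
        intro h; exact hb0 (hinj (by rw [h, map_zero]))
      have h1 : (u : O) * ϖ ^ m = ϖ ^ (m + 1) * c * b := by
        apply hinj
        rw [div_eq_iff hbK] at hc
        rw [hc]
        rw [map_mul, map_mul, map_pow]
        norm_cast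
      have h2 : ϖ ^ m * (u : O) = ϖ ^ m * (ϖ * c * b) := by
        rw [mul_comm, h1]; ring
      have h3 : (u : O) = ϖ * c * b := mul_left_cancel₀ (pow_ne_zero m hϖ0) h2
      apply hϖ.not_isUnit
      refine isUnit_of_dvd_unit ⟨c * b, by rw [h3]; ring⟩ u.isUnit
    surj := by
      intro n c
      obtain ⟨a, rfl⟩ := residue_surjective c
      exact ⟨_, ⟨a, rfl⟩, vl_eq hϖ0 n a⟩ }

end

end Pool.Agent.Helper41.SQ
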