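import Pool.Agent.Helper42.SQ.SUBm

/-!
# SQ, block SUBt: `sub_t` from `sub_tm`
-/

set_option autoImplicit false

namespace Pool.Agent.SQ

open NumberField Filter Module
open Pool.Agent.Helper64.Vojta (Pl nv)
open Pool.Agent.V2

universe u

theorem sub_t41 {k : Type u} [Field k] [NumberField k] {G : Type} [Group G] [Fintype G] {D : SqG k G} {H : Subgroup G}
    [Fintype (G ⧸ H)] (F : GFG D) {ι : Type} [Fintype ι] (x : ∀ n, ι → D.L n) (hx : Ptg D x)
    (hxH : ∀ n, ∀ h ∈ H, ∀ j, D.s n h (x n j) = x n j) (ξ : ι → F.K)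
    (hξ : ∀ j, ∀ᶠ n in (D.U : Filter ℕ), F.rp (ξ j) n = x n j) (P : Finset (Pl k)) (m : ℕ) (E : Submodule k F.K)
    (hE : E ≤ (∏ q : G ⧸ H, (Submodule.span k (Set.range ξ)).map (F.s q.out).toLinearMap) ^ m)
    (hEs : ∀ z ∈ E, ∀ g, F.s g z = z) (n : P → ℕ) (z : ∀ v : P, Fin (n v) → F.K) (hz : ∀ v, LinearIndependent k (z v))
    (hzE : ∀ v i, z v i ∈ E) :
    ∑ v : P, ∑ i, (Nat.card H * omg F v (z v i) + m * ∑ g, cg D x v g) ≤ m * finrank k E := by
  classical
  have hfg0 : ∀ T : Finset (G ⧸ H), (∏ q ∈ T, (Submodule.span k (Set.range ξ)).map (F.s q.out).toLinearMap).FG := by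
    intro T
    induction T using Finset.induction_on with
    | empty => rw [Finset.prod_empty, Submodule.one_eq_span]; exact Submodule.fg_span (Set.finite_singleton 1)
    | insert a T ha ih =>
      rw [Finset.prod_insert ha]
      exact ((Submodule.fg_span (Set.finite_range ξ)).map _).mul ih
  have hfd1 : FiniteDimensional k ↥((∏ q : G ⧸ H, (Submodule.span k (Set.range ξ)).map (F.s q.out).toLinearMap) ^ m) :=
    Module.Finite.iff_fg.2 ((hfg0 Finset.univ).pow m)
  have hfd : FiniteDimensional k E := Submodule.finiteDimensional_of_le hE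
  refine sub_tm F x hx ξ hξ hxH P m 1 (fun b hb => ?_) E (by rwa [one_mul]) hEs n z hz hzE
  rw [Submodule.mem_one] at hb
  obtain ⟨c, rfl⟩ := hb
  exact ((slk F).algebraMap_mem c).2

end Pool.Agent.SQ
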